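import Pool.Agent.MWLQ.StmtsB

/-!
# Row YPR of the table mwlq: a letter in front of `t1 σ` is in no image of a pin with a pin
-/

namespace Pool.Agent.MWLQ.H1

open Pool.Agent.Helper14_MV
open Pool.Agent.Helper2_MV (RR)
open Pool.Agent.MWK (pre)
open Pool.Agent.MWGN (nn Tau gh)
open Pool.Agent.MWGQ (pw Z Gn E0 A0 P0)
open Pool.Agent.MWLE (pin sep con tl tll Sg t1 Fc Fb Fy Fx Fu Fz rz sf k0)

/-- row YPR -/
theorem ypr (h2 : TwcStmt) (h1 : BlkStmt) : YprStmt := by
  intro n hn σ τ m hσ d g f p q W hW hF c hc j k hj hk hkj hcj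
  have hjs : j ∈ σ := (hσ.me j).2 hj
  obtain ⟨A, B, hAB⟩ := List.append_of_mem hjs
  -- the first simple letter
  obtain ⟨h, hh, ht⟩ : ∃ h ≤ 2 * m + 2, t1 σ = sep h := by
    cases hs : σ with
    | nil => rw [hs] at hjs; simp at hjs
    | cons a s =>
      refine ⟨a, (hσ.me a).1 (by rw [hs]; simp), ?_⟩
      simp [t1]
  have hpj : pin j ∈ wb n m d g := (h2 n hn σ τ m hσ d g).2.2.1 j hj
  have hb : t1 σ ∉ f (pin j) := by
    rw [ht]
    exact (h1 n hn σ τ m hσ d g f p q W hW hF).1 (pin j) hpj h hh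
  -- the splitting
  have hsp : ∃ Z1 Z2 : List ℕ, W = Z1 ++ (f (pin j) ++ Z2) ∧ pin k ∈ Z1 := by
    refine ⟨p ++ ((wb n m d g).flatMap f ++ ((tl A).flatMap f ++ f (sep j))),
      (tl B).flatMap f ++ q, ?_, ?_⟩
    · rw [hW, wd, hAB]
      simp only [tl, List.flatMap_append, List.flatMap_cons, List.flatMap_nil, List.append_assoc,
        List.append_nil]
    · apply List.mem_append_right
      apply List.mem_append_left
      exact List.mem_flatMap.2 ⟨pin j, hpj, hkj⟩
  obtain ⟨Z1, Z2, hZ, hk1⟩ := hsp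
  have hc1 : 1 ≤ (f (pin j)).count c := List.count_pos_iff.2 hcj
  have hcW : W.count c = Z1.count c + ((f (pin j)).count c + Z2.count c) := by
    rw [hZ, List.count_append, List.count_append]
  by_cases hm : t1 σ ∈ Z1
  · have h3 : nn W c (t1 σ) ≤ Z1.count c := by
      unfold nn
      rw [hZ, MWK.pre_append_mem hm]
      exact (MWK.pre_prefix Z1 (t1 σ)).sublist.count_le c
    omega
  · have h3 := hF.pt k hk
    unfold nn at h3
    rw [hZ, MWK.pre_append hm, MWK.pre_append hb, List.count_append, List.count_append] at h3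
    have h4 : 1 ≤ Z1.count (pin k) := List.count_pos_iff.2 hk1
    have h5 : 1 ≤ (f (pin j)).count (pin k) := List.count_pos_iff.2 hkj
    omega

end Pool.Agent.MWLQ.H1
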